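import Pool.Agent.RelB.P_PARF
import Pool.Agent.RelB.P_STR
import Pool.Agent.RelB.P_FAIRD
import Pool.Agent.RelB.P_NONB
import Pool.Agent.RelB.P_NPA
import Pool.Agent.RelB.P_APP
import Pool.Agent.RelB.P_XOR
import Pool.Agent.RelB.P_AFF
import Pool.Agent.RelB.P_ENT
import Pool.Agent.RelC.MAIN
import Pool.Agent.RelC.P_SEG
import Pool.Agent.RelC.P_LOOP
import Pool.Agent.RelC.P_LOOPA
import Pool.Agent.RelC.P_PX
import Pool.Agent.RelC.P_SUM
import Pool.Agent.RelC.P_PAR
import Pool.Agent.RelC.P_STR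
import Pool.Agent.RelC.P_KB
import Pool.Agent.RelC.P_FAIRD
import Pool.Agent.RelC.P_NONB

/-!
# Oracles relative to which exactly the lower levels of the Boolean hierarchy have measure zero
-/

set_option autoImplicit false

namespace Pool.Agent.Results.MP_a0edbc_lc.BooleanHierarchy

open Pool.Agent.RelM (Lang Instr Decides NP E1 E2 Null1 Null2)
open Pool.Agent.RelO (GaleNull1 GaleNull2)

/-- The level `m` of the Boolean hierarchy over `NP` relative to `O`: the symmetric differences of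
`m` languages in `NP`. -/
def BH (O : Lang) : ℕ → Set Lang
  | 0 => {fun _ => false}
  | m + 1 => {L | ∃ A ∈ NP O, ∃ B ∈ BH O m, L = fun x => xor (A x) (B x)}

/-- The class `Δ_2^p = P^NP` relative to `O`: the languages decided in polynomial time with an oracle
in `NP`. -/
def Delta2 (O : Lang) : Set Lang :=
  {L | ∃ A ∈ NP O, ∃ (P : List Instr) (c : ℕ), Decides A P L (fun n => (n + 2) ^ c)}

theorem bh_eq (O : Lang) (m : ℕ) : BH O m = Pool.Agent.RelB.BH O m := by
  induction m with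
  | zero => rfl
  | succ m ih =>
    show {L | ∃ A ∈ NP O, ∃ B ∈ BH O m, L = fun x => xor (A x) (B x)} =
      {L | ∃ A ∈ NP O, ∃ B ∈ Pool.Agent.RelB.BH O m, L = fun x => xor (A x) (B x)}
    rw [ih]

theorem delta_eq (O : Lang) : Delta2 O = Pool.Agent.RelC.D2 O := rfl

theorem gale_sub {s : ℝ} {O : Lang} {X Y : Set Lang} (h : X ⊆ Y)
    (hY : GaleNull1 s O Y ∧ GaleNull2 s O Y) : GaleNull1 s O X ∧ GaleNull2 s O X := by
  obtain ⟨⟨d, hd, h1⟩, ⟨d', hd', h2⟩⟩ := hY
  exact ⟨⟨d, fun k => ⟨(hd k).1, (hd k).2.1, fun A hA => (hd k).2.2 A (h hA)⟩, h1⟩,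
    ⟨d', fun k => ⟨(hd' k).1, (hd' k).2.1, fun A hA => (hd' k).2.2 A (h hA)⟩, h2⟩⟩

theorem bh_one (O : Lang) : BH O 1 = NP O := by
  ext L
  constructor
  · rintro ⟨A, hA, B, hB, rfl⟩
    rw [show B = fun _ => false from hB]
    simpa using hA
  · intro hL
    exact ⟨L, hL, fun _ => false, rfl, by funext x; simp⟩

/-- Let `0 ≤ a < 1`. There is an oracle `O` such that, relative to `O`, the level `m` of the Boolean
hierarchy over `NP` has null covers computable in polynomial time (and in time `2 ^ ((log l) ^ O(1))`)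
if `m * a < 1`, while for `m * a > 1` its part in `E` has no null cover computable in polynomial time
and its part in `E_2` has no null cover computable in time `2 ^ ((log l) ^ O(1))`. Moreover `NP` has
dimension `a` in `E` and in `E_2` (there are null covers of `NP` by `s`-supergales for `s > a`, and
none of `NP ∩ E`, `NP ∩ E_2` for `s < a`), for `m * a < 1` the level `m` has dimension at most
`m * a`, for `a = 0` the whole Boolean hierarchy has dimension `0`, and `Δ_2^p` is not null: its part in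
`E` has no null cover computable in polynomial time and its part in `E_2` none computable in time
`2 ^ ((log l) ^ O(1))`. -/
theorem result (a : ℝ) (h0 : 0 ≤ a) (h1 : a < 1) : ∃ O : Lang,
    (∀ m : ℕ, (m : ℝ) * a < 1 → Null1 O (BH O m) ∧ Null2 O (BH O m)) ∧
    (∀ m : ℕ, 1 < (m : ℝ) * a → ¬ Null1 O (BH O m ∩ E1 O) ∧ ¬ Null2 O (BH O m ∩ E2 O)) ∧
    (∀ s : ℝ, a < s → GaleNull1 s O (NP O) ∧ GaleNull2 s O (NP O)) ∧
    (∀ s : ℝ, s < a → ¬ GaleNull1 s O (NP O ∩ E1 O) ∧ ¬ GaleNull2 s O (NP O ∩ E2 O)) ∧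
    (∀ (m : ℕ) (s : ℝ), (m : ℝ) * a < 1 → (m : ℝ) * a < s →
      GaleNull1 s O (BH O m) ∧ GaleNull2 s O (BH O m)) ∧
    (a = 0 → ∀ s : ℝ, 0 < s →
      GaleNull1 s O (⋃ m, BH O m) ∧ GaleNull2 s O (⋃ m, BH O m)) ∧
    ¬ Null1 O (Delta2 O ∩ E1 O) ∧ ¬ Null2 O (Delta2 O ∩ E2 O) := by
  rcases h0.eq_or_lt with rfl | ha
  · have hLOOP := Pool.Agent.RelC.p_LOOPA_of (Pool.Agent.RelC.p_LOOP_of Pool.Agent.RelC.p_CP
      Pool.Agent.RelC.p_MV Pool.Agent.RelC.p_CLR Pool.Agent.RelC.p_GROW)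
    have hKB := Pool.Agent.RelC.p_KB_of Pool.Agent.RelC.jjspec Pool.Agent.RelC.nnp
    have hNB := Pool.Agent.RelC.p_NONB_of Pool.Agent.RelC.p_STR hKB
      (Pool.Agent.RelC.p_FAIRD_of Pool.Agent.RelC.p_STR)
      (Pool.Agent.RelC.hit Pool.Agent.RelC.bloc)
    obtain ⟨O, h2, h3, h4⟩ := Pool.Agent.RelC.main_zero
      (Pool.Agent.RelC.p_PAR_of Pool.Agent.RelC.p_SUM) Pool.Agent.RelB.p_ENT
      Pool.Agent.RelB.p_AFF Pool.Agent.RelC.p_PX hLOOP hNB
    have h5 : ∀ s : ℝ, 0 < s →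
        GaleNull1 s O (⋃ m, BH O m) ∧ GaleNull2 s O (⋃ m, BH O m) := by
      intro s hs
      have := h2 s hs
      simp only [← bh_eq] at this
      exact this
    have h6 : ∀ (m : ℕ) (s : ℝ), 0 < s → GaleNull1 s O (BH O m) ∧ GaleNull2 s O (BH O m) :=
      fun m s hs => gale_sub (Set.subset_iUnion _ m) (h5 s hs)
    refine ⟨O, fun m _ => Pool.Agent.RelT.null_of_gale (h6 m 1 one_pos), fun m hm => ?_,
      fun s hs => ?_, fun s hs => Pool.Agent.RelC.MAIN_.no_gale hs O, fun m s _ hs => h6 m s ?_,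
      fun _ => h5, h3, h4⟩
    · rw [mul_zero] at hm
      exact absurd hm (by norm_num)
    · have := h6 1 s hs
      rwa [bh_one] at this
    · rwa [mul_zero] at hs
  · have hHIT : Pool.Agent.RelB.T_HIT := Pool.Agent.RelB.hit Pool.Agent.RelB.bloc
    have hFD := Pool.Agent.RelB.p_FAIRD Pool.Agent.RelB.p_STR
    obtain ⟨O, h2, h3, h4, h5, h6, h7⟩ := Pool.Agent.RelC.main_pos Pool.Agent.RelB.p_PARF
      Pool.Agent.RelB.p_ENT Pool.Agent.RelB.p_AFF Pool.Agent.RelB.p_STR Pool.Agent.RelB.p_NPA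
      Pool.Agent.RelB.p_APP Pool.Agent.RelB.p_XOR
      (Pool.Agent.RelB.p_NONB Pool.Agent.RelB.p_STR hHIT hFD)
      (Pool.Agent.RelB.nonnull Pool.Agent.RelB.bloc) Pool.Agent.RelC.p_PX a ha h1
    simp only [← bh_eq] at h2 h3 h4
    refine ⟨O, h2, h3, fun s hs => ?_, h5, h4, fun h => absurd h ha.ne', h6, h7⟩
    have h8 := h4 1 s (by push_cast; linarith) (by push_cast; linarith)
    rwa [bh_one] at h8

end Pool.Agent.Results.MP_a0edbc_lc.BooleanHierarchy
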