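import Pool.Agent.RelX.ALL
import Pool.Agent.RelV.MAIN
import Pool.Agent.RelV.MHIT
import Pool.Agent.RelV.LOW
import Pool.Agent.RelV.NONNULL
import Pool.Agent.RelV.NONNULLD
import Pool.Agent.RelV.FAIR
import Pool.Agent.RelV.FAST
import Pool.Agent.RelV.CNT

/-!
# Oracles relative to which `NP` has given dimensions and measures in `E` and in `E_2`
-/

set_option autoImplicit false

namespace Pool.Agent.Results.MP_a0edbc_lc.DimensionTypes

open Pool.Agent.RelM (Lang NP E1 E2 Null1 Null2)
open Pool.Agent.RelO (GaleNull1 GaleNull2)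

/-- Let `a`, `b` be real numbers in `[0,1]` and let `p`, `q` be propositions such that `p` implies
`a = 1`, `q` implies `b = 1` and `p` implies `q`. There is an oracle `O` relative to which the
resource-bounded dimension of `NP` in `E` is `a`, the one of `NP` in `E_2` is `b`, `NP` has not
measure zero in `E` if and only if `p` holds, and `NP` has not measure zero in `E_2` if and only
if `q` holds: for `s > a` there is a null cover of `NP ∩ E` by `s`-supergales computable in
polynomial time, for `s < a` there is none; there is a null cover of `NP ∩ E` computable in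
polynomial time if and only if `p` is false; for `s > b` there is a null cover of `NP` by
`s`-supergales computable in time `2 ^ ((log l) ^ O(1))`, for `s < b` there is no such null cover
of `NP ∩ E_2`; there is a null cover of `NP ∩ E_2` computable in time `2 ^ ((log l) ^ O(1))` if and
only if `q` is false, and then there is even one of `NP`. If `a ≤ b < 1`, then moreover for `s > b`
there is a null cover of `NP` by `s`-supergales computable in polynomial time. -/
theorem result (a b : ℝ) (p q : Prop) (ha0 : 0 ≤ a) (ha1 : a ≤ 1) (hb0 : 0 ≤ b) (hb1 : b ≤ 1)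
    (hpa : p → a = 1) (hqb : q → b = 1) (hpq : p → q) : ∃ O : Lang,
    (∀ s : ℝ, a < s → GaleNull1 s O (NP O ∩ E1 O)) ∧
    (∀ s : ℝ, s < a → ¬ GaleNull1 s O (NP O ∩ E1 O)) ∧
    (¬ Null1 O (NP O ∩ E1 O) ↔ p) ∧
    (∀ s : ℝ, b < s → GaleNull2 s O (NP O)) ∧
    (∀ s : ℝ, s < b → ¬ GaleNull2 s O (NP O ∩ E2 O)) ∧
    (¬ Null2 O (NP O ∩ E2 O) ↔ q) ∧
    (¬ q → Null2 O (NP O)) ∧
    (a ≤ b → b < 1 → ∀ s : ℝ, b < s → GaleNull1 s O (NP O)) := by
  by_cases hab : a ≤ b ∧ b < 1
  · obtain ⟨h, hb⟩ := hab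
    have hp : ¬ p := fun h' => by linarith [hpa h']
    have hq : ¬ q := fun h' => by linarith [hqb h']
    have hH : Pool.Agent.RelV.T_HIT := Pool.Agent.RelV.hit Pool.Agent.RelV.bloc
    have hN : Pool.Agent.RelV.T_NONNULL :=
      Pool.Agent.RelV.nonnull Pool.Agent.RelV.bloc Pool.Agent.RelV.cnt
    have hD : Pool.Agent.RelV.T_NONNULLD := Pool.Agent.RelV.nonnulld_of hH Pool.Agent.RelV.fair
    obtain ⟨O, h1, h2, h3, h4, -⟩ := Pool.Agent.RelV.main_of Pool.Agent.RelV.mhit
      (Pool.Agent.RelV.low_of hN hD Pool.Agent.RelV.fast1 Pool.Agent.RelV.fast2) a b ha0 h hb1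
    have h5 : Null2 O (NP O) := (Pool.Agent.RelX.link _ _).2.1 (h3 1 hb).2
    exact ⟨O, h1, h2,
      iff_of_false (fun h' => h' ((Pool.Agent.RelX.link _ _).1.1 (h1 1 (lt_of_le_of_lt h hb)))) hp,
      fun s hs => (h3 s hs).2, h4,
      iff_of_false (fun h' => h' (Pool.Agent.RelX.null2_sub Set.inter_subset_left h5)) hq,
      fun _ => h5, fun _ _ s hs => (h3 s hs).1⟩
  · obtain ⟨O, h1, h2, h3, h4, h5, h6, h7⟩ :=
      Pool.Agent.RelX.fin a b p q ha0 ha1 hb0 hb1 hpa hqb hpq
    exact ⟨O, h1, h2, h3, h4, h5, h6, h7, fun h hb => absurd ⟨h, hb⟩ hab⟩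

end Pool.Agent.Results.MP_a0edbc_lc.DimensionTypes
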