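import Pool.Agent.RelQ.MAIN
import Pool.Agent.RelQ.P_THN
import Pool.Agent.RelQ.P_PHF
import Pool.Agent.RelQ.P_GDE

/-!
# The polynomial hierarchy can be small although `UP` contains generic languages

The machines, `NP`, `E`, `E_2` and the null covers are defined in `Pool.Agent.RelM.Defs`, the null covers
by supergales in `Pool.Agent.RelO.Defs`, genericity in `Pool.Agent.RelG.Defs`, the polynomial hierarchy,
`UP` and local operators in `Pool.Agent.RelQ.Defs`.
-/

set_option autoImplicit false

namespace Pool.Agent.Results.MP_a0edbc_lc.GenericHierarchy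

open Pool.Agent.RelM Pool.Agent.RelG Pool.Agent.RelO Pool.Agent.RelQ

/-- For every sequence of local operators `F` there is an oracle `O` relative to which the polynomial
hierarchy together with all the languages `F e O` has null covers by `s`-supergales computable in
polynomial time for every `s > 0` (so it has dimension `0`, and `p`-measure `0`), although for every `c`
the class `UP ∩ E` contains an `(l + 2) ^ c`-generic language and the class `UP ∩ E_2` contains a
`2 ^ ((log l + 2) ^ c)`-generic language. -/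
theorem result (F : ℕ → Lang → Lang) (hF : Local F) : ∃ O : Lang,
    Null1 O (PH O ∪ {L | ∃ e, L = F e O}) ∧
    (∀ s : ℝ, 0 < s → GaleNull1 s O (PH O ∪ {L | ∃ e, L = F e O}) ∧
      GaleNull2 s O (PH O ∪ {L | ∃ e, L = F e O})) ∧
    (∀ c : ℕ, ∃ A ∈ UP O ∩ E1 O, Generic O (fun l => (l + 2) ^ c) A) ∧
    (∀ c : ℕ, ∃ A ∈ UP O ∩ E2 O, Generic O (fun l => 2 ^ ((Nat.log 2 l + 2) ^ c)) A) := by
  obtain ⟨O, h1, h2, h3⟩ := RelQ.main_of RelQ.p_THN RelQ.p_PHF RelQ.p_GDE RelQ.p_UPG F hF
  exact ⟨O, null1_of_gale (h1 1 one_pos).1, h1, h2, h3⟩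

end Pool.Agent.Results.MP_a0edbc_lc.GenericHierarchy
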