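import Pool.Agent.RelK.FIN5

/-!
# Which of the classes `UP ∩ coUP`, `UP`, `NP ∩ coNP`, `NP` can be null relative to an oracle
-/

set_option autoImplicit false

namespace Pool.Agent.Results.MP_a0edbc_lc.SubclassTypes

open Pool.Agent.RelM (Lang NP E1 E2 Null1 Null2)
open Pool.Agent.RelO (GaleNull1 GaleNull2)
open Pool.Agent.RelQ (UP)
open Pool.Agent.RelZ (small_mono large_mono up_np npco_np upco_npco upco_up)

/-- The class `NP ∩ coNP` relative to `O`. -/
def NPcoNP (O : Lang) : Set Lang := {A | A ∈ NP O ∧ (fun x => !A x) ∈ NP O}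

/-- The class `UP ∩ coUP` relative to `O`. -/
def UPcoUP (O : Lang) : Set Lang := {A | A ∈ UP O ∧ (fun x => !A x) ∈ UP O}

/-- `X` has not measure zero in `E` and in `E_2`: `X ∩ E` has no null cover computable in polynomial
time and `X ∩ E_2` has none computable in time `2 ^ ((log l) ^ O(1))`, relative to `O`. -/
def NotNull (O : Lang) (X : Set Lang) : Prop := ¬ Null1 O (X ∩ E1 O) ∧ ¬ Null2 O (X ∩ E2 O)

/-- `X` has dimension `0`: for every `s > 0` it has a null cover by `s`-supergales computable in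
polynomial time, and one computable in time `2 ^ ((log l) ^ O(1))`, relative to `O`. -/
def DimZero (O : Lang) (X : Set Lang) : Prop :=
  ∀ s : ℝ, 0 < s → GaleNull1 s O X ∧ GaleNull2 s O X

theorem excl {O : Lang} {X : Set Lang} {p : Prop} (h : NotNull O X) (hp : ¬ p → DimZero O X) :
    p := by
  by_contra h'
  have h1 := Pool.Agent.RelT.null_of_gale (hp h' 1 one_pos)
  exact h.1 (Pool.Agent.RelZ.null1_mono Set.inter_subset_left h1.1)

/-- Let `a`, `b`, `c`, `d` be propositions. There is an oracle `O` relative to which `UP ∩ coUP`, `UP`,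
`NP ∩ coNP` and `NP` have not measure zero in `E` and in `E_2` if `a`, `b`, `c`, `d`, respectively, hold,
and have dimension `0` if they do not hold, and relative to which moreover the complement of `NP` has
not measure zero in `E` and in `E_2` if `d` holds (so that no class has measure one), if and only if
`a` implies `b` and `c`, and each of `b` and `c` implies `d`. -/
theorem result (a b c d : Prop) :
    (∃ O : Lang,
      (a → NotNull O (UPcoUP O)) ∧ (¬ a → DimZero O (UPcoUP O)) ∧
      (b → NotNull O (UP O)) ∧ (¬ b → DimZero O (UP O)) ∧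
      (c → NotNull O (NPcoNP O)) ∧ (¬ c → DimZero O (NPcoNP O)) ∧
      (d → NotNull O (NP O)) ∧ (¬ d → DimZero O (NP O)) ∧
      (d → NotNull O (NP O)ᶜ)) ↔
    (a → b) ∧ (a → c) ∧ (b → d) ∧ (c → d) := by
  constructor
  · rintro ⟨O, h1, -, h2, h3, h4, h5, -, h6, -⟩
    exact ⟨fun h => excl (large_mono (upco_up O) (h1 h)) h3,
      fun h => excl (large_mono (upco_npco O) (h1 h)) h5,
      fun h => excl (large_mono (up_np O) (h2 h)) h6,
      fun h => excl (large_mono (npco_np O) (h4 h)) h6⟩
  · rintro ⟨h1, h2, h3, h4⟩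
    obtain ⟨O, ⟨g1, g2⟩, ⟨g3, g4⟩, ⟨g5, g6⟩, ⟨g7, g8⟩, g9⟩ :=
      Pool.Agent.RelK.classification5 a b c d h1 h2 h3 h4
    exact ⟨O, g1, g2, g3, g4, g5, g6, g7, g8, g9⟩

end Pool.Agent.Results.MP_a0edbc_lc.SubclassTypes
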